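import Pool.Agent.Y92.ZX.Stm4
import Pool.Agent.Y226.ZM.L3

/-!
# Project ZX: level and order bounds near zeros and poles

Adapted from `Pool.Agent.Y226.ZM.L2`, `L3` (helper226) and `Pool.Agent.Y92.ZX.Core`.
-/

set_option autoImplicit false
set_option linter.unusedSectionVars false

open UpperHalfPlane H294ZP Polynomial

namespace Pool.Agent.Y44.ZX

open Pool.Agent.Y226 Pool.Agent.Y226.ZG Pool.Agent.Y226.ZM Pool.Agent.Y92.ZX

section red

variable {C : Type} [NormedField C] [IsUltrametricDist C] [CompleteSpace C] [CharZero C]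
  [IsAlgClosed C] {p : ℕ} [hpf : Fact p.Prime] {k : Type} [Field k] {n : ℕ}

/-- the order of a tame root of unity is the order of its residue -/
theorem ord_redB (red : OO C →+* k) (hker : ∀ x : OO C, red x = 0 ↔ ‖(x : C)‖ < 1)
    (hp1 : ‖(p : C)‖ < 1) {Z : OO C} {g : ℕ} (hcop : g.Coprime p)
    (hζ : IsPrimitiveRoot (Z : C) g) : orderOf (red Z) = g := by
  refine IsPrimitiveRoot.eq_orderOf ?_ |>.symm
  refine ⟨?_, fun m hm => ?_⟩
  · rw [← map_pow]
    have : Z ^ g = 1 := Subtype.ext hζ.pow_eq_one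
    rw [this, map_one]
  · apply hζ.dvd_of_pow_eq_one
    rw [← map_pow, ← sub_eq_zero, ← map_one red, ← map_sub, hker] at hm
    have hm' : ‖(Z : C) ^ m - 1‖ < 1 := hm
    refine tame_eq_one (m := g) ?_ ?_ hm'
    · have hco : IsCoprime (g : ℤ) (p : ℤ) := Nat.isCoprime_iff_coprime.2 hcop
      obtain ⟨u, v, huv⟩ := hco
      have h2 : (u : C) * (g : C) - 1 = -(v * p) := by
        have := congrArg (Int.cast : ℤ → C) huv
        push_cast at this
        linear_combination this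
      have h3 : ‖(u : C) * (g : C)‖ = 1 := by
        refine neq_one (y := 1) ?_ norm_one
        rw [h2, norm_neg]
        exact (nmul_le (nint v) le_rfl).trans_lt hp1
      rw [norm_mul] at h3
      have h4 := nint (C := C) u
      have h5 := nnat (C := C) g
      have h6 := norm_nonneg (u : C)
      have h7 := norm_nonneg (g : C)
      nlinarith
    · rw [← pow_mul, mul_comm, pow_mul, hζ.pow_eq_one, one_pow]

/-- the residue of a monomial -/
theorem red_prodB (red : OO C →+* k) (hker : ∀ x : OO C, red x = 0 ↔ ‖(x : C)‖ < 1)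
    {x : Fin n → C} {xO : Fin n → OO C} {v : Fin n → ℤ}
    (hxO : ∀ i, v i ≠ 0 → (xO i : C) = x i) (hx1 : ∀ i, v i ≠ 0 → ‖(xO i : C)‖ = 1) {F : OO C}
    (hF : (F : C) = ∏ i, x i ^ v i) : red F = ∏ i, red (xO i) ^ v i := by
  have hne : ∀ i, v i ≠ 0 → red (xO i) ≠ 0 := by
    intro i hi h0
    rw [hker, hx1 i hi] at h0
    exact lt_irrefl _ h0
  have h1 : F * ∏ i, xO i ^ (-v i).toNat = ∏ i, xO i ^ (v i).toNat := by
    apply Subtype.ext
    have e1 : ((∏ i, xO i ^ (-v i).toNat : OO C) : C) = ∏ i, (xO i : C) ^ (-v i).toNat := by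
      push_cast
      rfl
    have e2 : ((∏ i, xO i ^ (v i).toNat : OO C) : C) = ∏ i, (xO i : C) ^ (v i).toNat := by
      push_cast
      rfl
    show (F : C) * ((∏ i, xO i ^ (-v i).toNat : OO C) : C) = ((∏ i, xO i ^ (v i).toNat : OO C) : C)
    rw [e1, e2, hF, ← Finset.prod_mul_distrib]
    refine Finset.prod_congr rfl fun i _ => ?_
    by_cases hi : v i = 0
    · simp [hi]
    · rw [hxO i hi]
      exact (zpow_split (fun _ => by
        rw [← hxO i hi]
        exact norm_pos_iff.1 (by rw [hx1 i hi]; exact one_pos))).symm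
  have h2 := congrArg red h1
  rw [map_mul, map_prod, map_prod] at h2
  have h3 : ∏ i, red (xO i ^ (-v i).toNat) ≠ 0 := by
    refine Finset.prod_ne_zero_iff.2 fun i _ => ?_
    rw [map_pow]
    by_cases hi : v i = 0
    · simp [hi]
    · exact pow_ne_zero _ (hne i hi)
  apply mul_right_cancel₀ h3
  rw [h2, ← Finset.prod_mul_distrib]
  refine Finset.prod_congr rfl fun i _ => ?_
  rw [map_pow, map_pow]
  by_cases hi : v i = 0
  · simp [hi]
  · exact zpow_split fun _ => hne i hi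

end red

section LB

variable {C : Type} [NormedField C] [IsUltrametricDist C] [CompleteSpace C] [CharZero C]
  [IsAlgClosed C] {p : ℕ} [hpf : Fact p.Prime]
  {k 𝕜 : Type} [Field k] [Field 𝕜] {n N W M d D B : ℕ} (𝓛 : LB C p k 𝕜 n N W M d D B)

/-- the residues at the points near zeros and poles are in a finite set -/
theorem resid_badB (hR : S_ROOT) : ∃ S : Set k, S.Finite ∧ ∀ x : Fin n → C, 𝓛.Pt x →
    ∀ a, ‖x a‖ ≠ 1 → ∀ i, i ≠ a → ∀ u : OO C, (u : C) = x i → 𝓛.red u ∈ S := by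
  refine ⟨⋃ q : Fin n × Bool × Fin n, ((fun y : (PowerSeries 𝕜)ˣ =>
      𝓛.ι (PowerSeries.coeff 0 (y : PowerSeries 𝕜))) '' {y | y ∈ 𝓛.𝓡.ys q.1 q.2.1 q.2.2}), ?_, ?_⟩
  · refine Set.finite_iUnion fun q => Set.Finite.image _ ?_
    exact Multiset.finite_toSet _
  · intro x hx a ha i hia u hu
    obtain ⟨s, z, e, hz, hC, heX, hn, hs, hroot⟩ := hR C p k 𝕜 n N W M d D B 𝓛 x hx a ha
    obtain ⟨y, hy, y', hyy, hxy⟩ := hroot i hia
    rw [Set.mem_iUnion]
    refine ⟨(a, s, i), y, hy, ?_⟩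
    show 𝓛.ι (PowerSeries.coeff 0 (y : PowerSeries 𝕜)) = _
    rw [← hyy, PowerSeries.coeff_map, 𝓛.hι]
    symm
    apply red_congrB
    show ‖(u : C) - ((PowerSeries.coeff 0 (y' : PowerSeries (Nr C p)) : Nr C p) : C)‖ < 1
    rw [hu]
    have h1 : ‖x i - e (y' : PowerSeries (Nr C p))‖ < 1 := by
      by_contra hcon
      push Not at hcon
      have h2 := one_le_pow₀ hcon (n := B)
      have h3 := 𝓛.hp1
      linarith
    have h2 := ev_sub_le (ψ := (Nr C p).subtype) (fun r => hC r) heX hn hz.le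
      (y' : PowerSeries (Nr C p))
    have e1 : x i - ((PowerSeries.coeff 0 (y' : PowerSeries (Nr C p)) : Nr C p) : C) =
        (x i - e (y' : PowerSeries (Nr C p))) + (e (y' : PowerSeries (Nr C p)) -
          (Nr C p).subtype (PowerSeries.coeff 0 (y' : PowerSeries (Nr C p)))) := by
      show _ = (x i - e (y' : PowerSeries (Nr C p))) + (e (y' : PowerSeries (Nr C p)) -
        ((PowerSeries.coeff 0 (y' : PowerSeries (Nr C p)) : Nr C p) : C))
      ring
    rw [e1]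
    exact nadd_lt h1 (h2.trans_lt hz)

/-- the order of the tame part of a multiplicative relation is bounded when the residues are in a
finite set -/
theorem order_bound_mulB {S : Set k} (hS : S.Finite) (κ : Cˣ) (hκ : ‖(κ : C)‖ = 1)
    (b : Fin n → ℤ) : ∃ G : ℕ, ∀ (x : Fin n → C) (xO : Fin n → OO C),
      (∀ i, b i ≠ 0 → (xO i : C) = x i) → (∀ i, b i ≠ 0 → ‖(xO i : C)‖ = 1) →
      (∀ i, b i ≠ 0 → 𝓛.red (xO i) ∈ S) → ∀ (g' s : ℕ) (ζ' ε : C), 0 < g' → g'.Coprime p →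
      IsPrimitiveRoot ζ' g' → IsPrimitiveRoot ε (p ^ s) → (κ : C) * ∏ i, x i ^ b i = ζ' * ε →
      g' ≤ G := by
  classical
  set κO : OO C := ⟨(κ : C), hκ.le⟩ with hκO
  let f : (Fin n → k) → ℕ := fun t => orderOf (𝓛.red κO * ∏ i, t i ^ b i)
  have hfin : (f '' (Set.pi Set.univ fun i => if b i = 0 then {1} else S)).Finite := by
    refine Set.Finite.image _ (Set.Finite.pi fun i => ?_)
    split_ifs
    · exact Set.finite_singleton _
    · exact hS
  obtain ⟨G, hG⟩ := hfin.bddAbove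
  refine ⟨G, ?_⟩
  intro x xO hxO hx1 hxS g' s ζ' ε hg hcop hζ hε hrel
  have hζn : ‖ζ'‖ = 1 := Loc.root_norm hg hζ.pow_eq_one
  set Z : OO C := ⟨ζ', hζn.le⟩ with hZ
  have hord : orderOf (𝓛.red Z) = g' := ord_redB 𝓛.red 𝓛.hker 𝓛.hp1 hcop hζ
  have hFn : ‖∏ i, x i ^ b i‖ = 1 :=
    Loc.mon_norm fun i hi => by rw [← hxO i hi]; exact hx1 i hi
  set F : OO C := ⟨∏ i, x i ^ b i, hFn.le⟩ with hF
  have hFr : 𝓛.red F = ∏ i, 𝓛.red (xO i) ^ b i := red_prodB 𝓛.red 𝓛.hker hxO hx1 rfl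
  have hεlt : ‖ε - 1‖ < 1 := ppow_root_lt 𝓛.hp1 hε.pow_eq_one
  have h1 : 𝓛.red Z = 𝓛.red (κO * F) := by
    apply red_congrB
    show ‖ζ' - (κ : C) * ∏ i, x i ^ b i‖ < 1
    rw [hrel]
    have e1 : ζ' - ζ' * ε = -(ζ' * (ε - 1)) := by ring
    rw [e1, norm_neg, norm_mul, hζn, one_mul]
    exact hεlt
  rw [← hord, h1, map_mul, hFr]
  apply hG
  refine ⟨fun i => if b i = 0 then 1 else 𝓛.red (xO i), ?_, ?_⟩
  · intro i _
    by_cases hi : b i = 0
    · simp [hi]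
    · simp only [if_neg hi]
      exact hxS i hi
  · show orderOf _ = orderOf _
    congr 2
    refine Finset.prod_congr rfl fun i _ => ?_
    by_cases hi : b i = 0
    · simp [hi]
    · simp [hi]

end LB

theorem lev (hR : S_ROOT) (hO : S_ORD) : S_LEV := by
  classical
  intro C _ _ _ _ _ p hpf k 𝕜 _ _ _ _ n N W M d D B 𝓛
  obtain ⟨κ, hκ⟩ := 𝓛.exists_kap
  obtain ⟨S, hS, hSx⟩ := resid_badB 𝓛 hR
  obtain ⟨G, hG⟩ := hO C p k 𝕜 n N W M d D B 𝓛 S hS
  refine ⟨G, ?_⟩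
  intro X x hx hX j l hj hl τ w hjτ hkw N₀ hN₀ hΨ hmin
  have hYex : ∀ i, ∃ y : Cˣ, ‖x i‖ = 1 → (y : C) = x i := by
    intro i
    by_cases h : ‖x i‖ = 1
    · exact ⟨Units.mk0 (x i) (norm_pos_iff.1 (by rw [h]; exact one_pos)), fun _ => rfl⟩
    · exact ⟨1, fun h' => absurd h' h⟩
  choose Y hY using hYex
  obtain ⟨ι, _, α, δ, β, h, h1, h2, h3, h4, h5⟩ := modular_spec N₀ hN₀
  rw [← h4] at hΨ
  obtain ⟨q, -, hq⟩ := Finset.prod_eq_zero_iff.1 hΨ
  have hww : jj w = jj (h q τ) := sub_eq_zero.1 hq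
  have hdet : (0 : ℤ) < (α q : ℤ) * (δ q : ℤ) - β q * 0 := by
    have := (h1 q).2.2
    have h6 : (α q : ℤ) * (δ q : ℤ) = N₀ := by exact_mod_cast this
    rw [h6]
    simpa using hN₀
  obtain ⟨A, B₁, g', s, ζ', ε, hP, -, hh, hh0, hlev⟩ := 𝓛.PB_of_rel hκ hX hj hl (hY j hj)
    (hY l hl) (τ := τ) (w := h q τ) (a := α q) (b := β q) (c := 0) (d' := δ q) hdet (by
      have := h2 q τ
      push_cast
      rw [zero_mul, zero_add]
      exact this) hjτ (by rw [hkw, hww])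
  have hlev' : A * B₁ * (g' * p ^ s) ^ 2 * hh ^ 2 = N₀ := by
    have h6 : (α q : ℤ) * (δ q : ℤ) = N₀ := by exact_mod_cast (h1 q).2.2
    rw [h6, mul_zero, sub_zero] at hlev
    exact_mod_cast hlev
  have hpos : 0 < A * B₁ * (g' * p ^ s) ^ 2 := by
    have h2 := hpf.out.pos
    have h3 := hP.hA
    have h4 := hP.hB
    have h5 := hP.hg
    positivity
  have hle : N₀ ≤ A * B₁ * (g' * p ^ s) ^ 2 := by
    refine hmin _ hpos ?_
    rw [hww]
    have := hP.hrel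
    rw [hjτ, hkw, hww] at this
    exact this
  have hNeq : N₀ = A * B₁ * (g' * p ^ s) ^ 2 := by
    refine le_antisymm hle ?_
    rw [← hlev']
    exact Nat.le_mul_of_pos_right _ (pow_pos hh0 2)
  refine ⟨A, B₁, g', s, hP.hA, hP.hB, hP.hAW, hP.hBW, hP.hg, hP.hcop, hNeq, ?_⟩
  rintro ⟨a, ha⟩
  refine hG κ Y X j l A B₁ g' s ζ' ε hP ⟨x j, hj.le⟩ ⟨x l, hl.le⟩ (hY j hj).symm
    (hY l hl).symm (by rw [hY j hj]; exact hj) (by rw [hY l hl]; exact hl) ?_ ?_
  · exact hSx x hx a ha j (by rintro rfl; exact ha hj) _ rfl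
  · exact hSx x hx a ha l (by rintro rfl; exact ha hl) _ rfl

theorem mulb (hR : S_ROOT) : S_MULB := by
  classical
  intro C _ _ _ _ _ p hpf k 𝕜 _ _ _ _ n N W M d D B 𝓛 ν hν b
  obtain ⟨S, hS, hSx⟩ := resid_badB 𝓛 hR
  obtain ⟨G, hG⟩ := order_bound_mulB 𝓛 hS ν hν b
  refine ⟨G, ?_⟩
  rintro x hx ⟨a, ha⟩ hx1 ζ o ho hζ hrel
  obtain ⟨o', t, ζ₂, ε₂, ho', hcop₂, hζ₂, hε₂, hζe⟩ := root_decomp (p := p) ho hζ
  have ho'0 : 0 < o' := Nat.pos_of_ne_zero (by
    rintro rfl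
    rw [zero_mul] at ho'
    omega)
  have hex : ∀ i, ∃ u : OO C, b i ≠ 0 → (u : C) = x i := by
    intro i
    by_cases h : b i = 0
    · exact ⟨0, fun h' => absurd h h'⟩
    · exact ⟨⟨x i, (hx1 i h).le⟩, fun _ => rfl⟩
  choose xO hxO using hex
  refine ⟨o', t, ho'0, ?_, hcop₂, ho'⟩
  refine hG x xO hxO (fun i hi => by rw [hxO i hi]; exact hx1 i hi) (fun i hi => ?_) o' t ζ₂ ε₂
    ho'0 hcop₂ hζ₂ hε₂ (by rw [hrel, hζe])
  exact hSx x hx a ha i (by rintro rfl; exact ha (hx1 _ hi)) _ (hxO i hi)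

end Pool.Agent.Y44.ZX
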