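import Pool.Agent.Y92.ZX.Stm4
import Pool.Agent.Y226.ZM.Mix
import Pool.Agent.Y219.ZX.Fin

/-!
# Project ZX: finiteness of the intersections with cosets and with special subvarieties (MFIN)
-/

set_option autoImplicit false
set_option linter.unusedSectionVars false

open UpperHalfPlane H294ZP Polynomial

namespace Pool.Agent.Y44.ZX

open Pool.Agent.Y226 Pool.Agent.Y226.ZG Pool.Agent.Y226.ZM Pool.Agent.Y226.ZU Pool.Agent.Y92.ZX
open Pool.Agent.Y219.ZX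

variable {n : ℕ}

/-- no coordinate is constant: multiplicative relations -/
lemma case2_mul (𝔮 : Ideal (MvPolynomial (Fin n) QA)) [h𝔮 : 𝔮.IsPrime] (h : Rel 𝔮)
    (hc : ∀ (i : Fin n) (c : QA), MvPolynomial.X i - MvPolynomial.C c ∉ 𝔮) {b : Fin n → ℤ}
    (hb : b ≠ 0) (τ : QA) :
    {y | y ∈ VC 𝔮 ∧ (∀ i, b i ≠ 0 → y i ≠ 0) ∧ ∏ i, y i ^ b i = rA τ}.Finite ∧
      ∀ y ∈ VC 𝔮, (∀ i, b i ≠ 0 → y i ≠ 0) → ∏ i, y i ^ b i = rA τ →
        ∃ s : Fin n → QA, (fun i => rA (s i)) = y := by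
  classical
  obtain ⟨𝔽, _, _, x, hx1, hx2⟩ := ff_of_prime 𝔮
  obtain ⟨𝒞, h𝒞⟩ := exists_GP x hx1 (fun i => by
      intro halg
      obtain ⟨r, hr, hr0⟩ := halg
      obtain ⟨c, hc'⟩ := root_const (algebraMap QA 𝔽) hr hr0
      apply hc i c
      rw [← hx2, map_sub, MvPolynomial.aeval_X, MvPolynomial.aeval_C, hc', sub_self])
    (fun i j hij => by
      obtain ⟨a, b, g, h1, h2, h3, h4, -, h5⟩ := h i j hij
      refine ⟨a, b, mkG a b g, mkG_cor h1 h2 h3 h4, ?_⟩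
      rw [← E2_mkG, ← hx2, aeval_E2, MvPolynomial.aeval_X, MvPolynomial.aeval_X] at h5
      exact h5)
  subst h𝒞
  have hf : mp b 1 τ ∉ 𝔮 := mp_notin 𝒞 hx2 hb one_ne_zero
  have hz : ∀ y : Fin n → ℂ, (∀ i, b i ≠ 0 → y i ≠ 0) → ∏ i, y i ^ b i = rA τ →
      MvPolynomial.eval₂ rA y (mp b 1 τ) = 0 := by
    intro y hy0 hy
    exact mp_eval hy0 (by rw [map_one, one_mul]; exact hy)
  refine ⟨(zeros_finite 𝒞 hx2 hf).subset fun y hy => ⟨hy.1, hz y hy.2.1 hy.2.2⟩,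
    fun y hy hy0 hyτ => ?_⟩
  obtain ⟨s, hs, -⟩ := zeros_alg 𝒞 hx2 hf y hy (hz y hy0 hyτ)
  exact ⟨s, hs⟩

/-- all components -/
lemma comps_mul {κ : Type} (F : κ → MvPolynomial (Fin n × Bool) QA) (hg : Gen F)
    {b : Fin n → ℤ} (hb : b ≠ 0) (τ : QA) :
    {y | y ∈ VF F ∧ (∀ i, b i ≠ 0 → y i ≠ 0) ∧ ∏ i, y i ^ b i = rA τ}.Finite ∧
      ∀ y ∈ VF F, (∀ i, b i ≠ 0 → y i ≠ 0) → ∏ i, y i ^ b i = rA τ →
        ∃ s : Fin n → QA, (fun i => rA (s i)) = y := by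
  set I : Ideal (MvPolynomial (Fin n) QA) := (Ideal.span (Set.range F)).map psi with hI
  have hRel : ∀ 𝔮 : Ideal (MvPolynomial (Fin n) QA), I ≤ 𝔮 → Rel 𝔮 := by
    intro 𝔮 h𝔮 i j hij
    obtain ⟨a, b, g, h1, h2, h3, h4, h5, h6⟩ := hg i j hij
    refine ⟨a, b, g, h1, h2, h3, h4, h5, h𝔮 ?_⟩
    rw [← psi_bh]
    exact Ideal.mem_map_of_mem psi h6
  have hmin : ∀ y ∈ VF F, ∃ 𝔮 ∈ I.minimalPrimes, y ∈ VC 𝔮 := by
    intro y hy
    have h1 : I ≤ RingHom.ker (MvPolynomial.eval₂Hom rA y) := by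
      rw [hI, Ideal.map_le_iff_le_comap, Ideal.span_le]
      rintro _ ⟨t, rfl⟩
      show MvPolynomial.eval₂Hom rA y (psi (F t)) = 0
      show MvPolynomial.eval₂ rA y (psi (F t)) = 0
      rw [eval_psi]
      exact hy t
    have : (RingHom.ker (MvPolynomial.eval₂Hom rA y)).IsPrime := RingHom.ker_isPrime _
    obtain ⟨𝔮, h𝔮, hle⟩ := Ideal.exists_minimalPrimes_le h1
    exact ⟨𝔮, h𝔮, fun f hf => hle hf⟩
  have hfin : I.minimalPrimes.Finite := Ideal.finite_minimalPrimes_of_isNoetherianRing _ I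
  have hd : ∀ 𝔮 ∈ I.minimalPrimes,
      {y | y ∈ VC 𝔮 ∧ (∀ i, b i ≠ 0 → y i ≠ 0) ∧ ∏ i, y i ^ b i = rA τ}.Finite ∧
      ∀ y ∈ VC 𝔮, (∀ i, b i ≠ 0 → y i ≠ 0) → ∏ i, y i ^ b i = rA τ →
        ∃ s : Fin n → QA, (fun i => rA (s i)) = y := by
    intro 𝔮 h𝔮
    have : 𝔮.IsPrime := h𝔮.1.1
    by_cases hc : ∀ (i : Fin n) (c : QA), MvPolynomial.X i - MvPolynomial.C c ∉ 𝔮
    · exact case2_mul 𝔮 (hRel 𝔮 h𝔮.1.2) hc hb τ
    · push Not at hc
      obtain ⟨i, c, hic⟩ := hc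
      obtain ⟨s, hs⟩ := case1 𝔮 (hRel 𝔮 h𝔮.1.2) hic
      exact ⟨(Set.finite_singleton (fun l => rA (s l))).subset fun y hy => (hs y hy.1).symm,
        fun y hy _ _ => ⟨s, hs y hy⟩⟩
  refine ⟨?_, fun y hy hy0 hyE => ?_⟩
  · refine Set.Finite.subset (hfin.biUnion fun 𝔮 h𝔮 => (hd 𝔮 h𝔮).1) ?_
    rintro y ⟨hy, hyE⟩
    obtain ⟨𝔮, h𝔮, hyq⟩ := hmin y hy
    exact Set.mem_biUnion h𝔮 ⟨hyq, hyE⟩
  · obtain ⟨𝔮, h𝔮, hyq⟩ := hmin y hy
    exact (hd 𝔮 h𝔮).2 y hyq hy0 hyE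

theorem mfin : S_MFIN := by
  classical
  refine ⟨?_, ?_⟩
  · intro n κ F hF b hb τ
    obtain ⟨h1, h2⟩ := comps_mul F hF hb τ
    refine ⟨h1, fun y hy hy0 hyτ => ?_⟩
    obtain ⟨s, hs⟩ := h2 y hy hy0 hyτ
    exact ⟨s, fun i => congrFun hs i⟩
  · intro n k κ F hF lam hlam Γ r Z hr hconst
    set lam' : Fin (n + k) → QA := Fin.append lam (fun _ => 1) with hlam'
    have hlam'l : ∀ j, lam' (Fin.castAdd k j) = lam j := fun j => Fin.append_left _ _ _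
    have hlam'0 : ∀ i, lam' i ≠ 0 := by
      intro i
      refine Fin.addCases (motive := fun i => lam' i ≠ 0) ?_ ?_ i
      · intro j
        rw [hlam'l]
        exact hlam j
      · intro l
        rw [hlam', Fin.append_right]
        exact one_ne_zero
    obtain ⟨h1, h2⟩ := comps F hF {y | (fun j => rA (lam j) * y (Fin.castAdd k j)) ∈ Z.locus}
      fun 𝔮 _ hc hpsi => by
        by_cases hall : ∃ i, Z.cls i = none
        · obtain ⟨i, hi⟩ := hall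
          obtain ⟨c, hc'⟩ := hconst i
          refine ⟨_, hc (Fin.castAdd k i) (c / lam i), fun y hy => ?_⟩
          have h1 : rA (lam i) * y (Fin.castAdd k i) = Z.const i := by
            obtain ⟨w, hw⟩ := hy
            exact (hw i).1 hi
          rw [MvPolynomial.eval₂_sub, MvPolynomial.eval₂_X, MvPolynomial.eval₂_C, map_div₀, hc',
            ← h1]
          have : rA (lam i) ≠ 0 := fun h => hlam i ((map_eq_zero rA).1 h)
          rw [mul_div_cancel_left₀ _ this, sub_self]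
        · push Not at hall
          obtain ⟨j, -, l, -, hjl, hcl⟩ := coll Z.cls Finset.univ (by simpa using hr)
            (fun x _ => hall x)
          obtain ⟨N, hN, hΨ⟩ := coll_psi (lam := lam) (mu := 0) Z hcl
          have hjl' : Fin.castAdd k j ≠ Fin.castAdd k l := fun h =>
            hjl (Fin.castAdd_injective n k h)
          refine ⟨_, hpsi lam' 0 hlam'0 _ _ hjl' N hN, fun y hy => ?_⟩
          have h0 : (fun i => rA (lam i) * (fun j => y (Fin.castAdd k j)) i +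
              rA ((0 : Fin n → QA) i)) = fun i => rA (lam i) * y (Fin.castAdd k i) := by
            funext i
            have h3 : rA ((0 : Fin n → QA) i) = 0 := map_zero rA
            rw [h3, add_zero]
          have h4 := hΨ (fun j => y (Fin.castAdd k j)) (by rw [h0]; exact hy)
          rw [PsiMA_eval₂] at h4 ⊢
          rw [hlam'l, hlam'l]
          exact h4
    refine ⟨h1, fun y hy hyZ => ?_⟩
    obtain ⟨s, hs⟩ := h2 y hy hyZ
    exact ⟨s, fun i => congrFun hs i⟩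

end Pool.Agent.Y44.ZX
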